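import Pool.Agent.Results.MP_9c97e9_nt.AtMostTwoSplitPrimes
import Pool.Agent.Run7.h701.TW.Gd
import Pool.Agent.Run7.h268.FN.Cong

/-!
# The exact 2-part of the formula of Birch and Swinnerton-Dyer for a curve without complex
# multiplication: exact proportions in arbitrary sets of primes

`E_D` is the quadratic twist by `D > 0` of the modular curve `X_0(14)`, which has no complex
multiplication.  A prime is split if it is `1` modulo `8` and a square modulo `7`, and inert if it is
`5` modulo `8` and not a square modulo `7`.  `D` runs over the squarefree numbers with `k ≤ 2` split and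
`l` inert prime factors and no other ones, all of them in an arbitrary set `T` of primes.

* For each of these `D` the formula of Birch and Swinnerton-Dyer holds modulo two, and the condition
  that `L(E_D, 1) ≠ 0`, `E_D(ℚ)` is finite, `Ш(E_D/ℚ)[2^∞] = 0` and the analytic order of the
  Tate-Shafarevich group is a 2-adic unit, is equivalent to the condition that `E_D(ℚ)` is finite and
  `Ш(E_D/ℚ)[2^∞] = 0`.
* Let `P n = ∏_{i < (n+1)/2} (1 - 2^{-(2i+1)})`, the proportion of the invertible matrices among the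
  symmetric `n` times `n` matrices over the field with two elements: `1, 1/2, 1/2, 7/16, …`. Let
  `l ≥ 1`, and suppose that `T` contains a positive proportion of the inert primes up to `Y` and (if
  `k > 0`) of the split ones, for all large `Y`. The number of these `D ≤ X` has the order of magnitude
  `X (log log X)^(k+l-1) / log X`, and the first condition holds for exactly the proportion `P k`,
  that is `1, 1/2, 1/2` for `k = 0, 1, 2`.
* If there are no inert prime factors, `b` split ones for which `8` divides the number of the points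
  modulo `p` of `X_0(14)` and `r` for which it does not, `1 ≤ b + r ≤ 2`, then the proportion is
  `P (b+r-1)` for odd `r`, `P (b+r-2)` for even `r > 0`, and zero for `r = 0`.
The conditions on `T` in the second part hold, for instance, for each residue class.

The proof. For one `D`: MP_9c97e9_nt/AtMostTwoSplitPrimes (the condition is equivalent to the
nonsingularity of a matrix over the field with two elements). Its entries are the quadratic symbols of
the split prime factors, and the diagonal is given by the symbols of the other prime factors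
(Pool/Agent/Run7/h701/TW/Gd). The law for random graphs with marked vertices is that of helper268
(Pool/Agent/Run7/h268/FN, made for the twists of `X_0(49)`).
-/

set_option autoImplicit false

open Filter Topology NumberField IsDedekindDomain

namespace Run7.h701.Kept.FixedNumberTwoPartX14

open Pool.Agent.Results.MP_9c97e9_nt.AtMostTwoSplitPrimes (twist c MinimalAt Sha2 rank IsAnalyticSha
  FormulaModTwo Split Inert N)

/-- the number of the prime factors of `D` with the property `Q` -/
noncomputable def number (Q : ℕ → Prop) (D : ℕ) : ℕ := Nat.card {p : ℕ // p.Prime ∧ p ∣ D ∧ Q p}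

/-- `D` is squarefree, all its prime factors are in `T` and split or inert, `k` of them are split, and
`l` are inert -/
def Family (T : Set ℕ) (k l D : ℕ) : Prop :=
  Squarefree D ∧ (∀ p : ℕ, p.Prime → p ∣ D → p ∈ T ∧ (Split p ∨ Inert p)) ∧
    number Split D = k ∧ number Inert D = l

/-- `8` divides the number of the points of `X_0(14)` over the field with `p` elements -/
def Eight (p : ℕ) : Prop := 8 ∣ N 1 p

/-- `D` is squarefree, all its prime factors are in `T` and split, `b` of them have the property that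
`8` divides the number of the points of `X_0(14)` modulo `p`, and `r` do not have it -/
def SplitFamily (T : Set ℕ) (b r D : ℕ) : Prop :=
  Squarefree D ∧ (∀ p : ℕ, p.Prime → p ∣ D → p ∈ T ∧ Split p) ∧
    number Eight D = b ∧ number (fun p => ¬ Eight p) D = r

/-- at least a positive proportion of the primes up to `Y` is in `T` and has the property `Q`, for all
large `Y` -/
def Dense (T : Set ℕ) (Q : ℕ → Prop) : Prop := ∃ (δ : ℝ) (Y₀ : ℕ), 0 < δ ∧ ∀ Y : ℕ, Y₀ ≤ Y →
  δ * (Y / Real.log Y) ≤ (Nat.card {p : ℕ // p ≤ Y ∧ p.Prime ∧ p ∈ T ∧ Q p} : ℝ)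

/-- the number of the `D` with `1 ≤ D ≤ X` and `Q D` -/
noncomputable def count (Q : ℕ → Prop) (X : ℕ) : ℕ := Nat.card {D : ℕ // 1 ≤ D ∧ D ≤ X ∧ Q D}

/-- the rank is zero, and the 2-primary part of the Tate-Shafarevich group is trivial -/
def RankZeroShaTwo (D : ℕ) : Prop :=
  rank ℚ (twist D) = 0 ∧ Nat.card (Sha2 ℚ (twist D)) = 1

/-- The 2-part of the formula, with a unit: the `L`-function does not vanish at `1`, the rank is zero,
the 2-primary part of the Tate-Shafarevich group is trivial, and its analytic order is a 2-adic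
unit. -/
def UnitPart (D : ℕ) : Prop :=
  RankZeroShaTwo D ∧ ∃ x : ℚ, x ≠ 0 ∧ padicValRat 2 x = 0 ∧ IsAnalyticSha ℚ (twist D) 0 x

/-- `F` has the order of magnitude `X (log log X)^(n-1) / log X`, and the 2-part of the formula holds,
with a unit, for exactly the proportion `a` of the `D` in `F` -/
def Law (F : ℕ → Prop) (n : ℕ) (a : ℝ) : Prop :=
  (∃ (c C : ℝ) (X₀ : ℕ), 0 < c ∧ 0 < C ∧ ∀ X : ℕ, X₀ ≤ X →
    c * (X * Real.log (Real.log X) ^ (n - 1) / Real.log X) ≤ (count F X : ℝ) ∧
    (count F X : ℝ) ≤ C * (X * Real.log (Real.log X) ^ (n - 1) / Real.log X)) ∧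
  Tendsto (fun X : ℕ => (count (fun D => F D ∧ UnitPart D) X : ℝ) / (count F X : ℝ)) atTop (𝓝 a)

/-- `P n = ∏_{i < (n+1)/2} (1 - 2^{-(2i+1)})` -/
noncomputable def P (n : ℕ) : ℝ :=
  ∏ i ∈ Finset.range ((n + 1) / 2), (1 - (1 / 2 : ℝ) ^ (2 * i + 1))

section proof

open Run7.h268.FN
open Pool.Agent.V11291.FK (PG Dn)
open Pool.Agent.Run7.h701.TW (nn)

/-- the set of the split and inert primes in `T` -/
def T' (T : Set ℕ) : Set ℕ := {p | p ∈ T ∧ (Split p ∨ Inert p)}

theorem not_both {p : ℕ} (h : Inert p) : ¬ Split p := by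
  intro h1
  have h2 := h1.2.1
  have h3 := h.2.1
  omega

theorem four_split {p : ℕ} (h : Split p) : p % 4 = 1 := by
  have := h.2.1
  omega

theorem four_inert {p : ℕ} (h : Inert p) : p % 4 = 1 := by
  have := h.2.1
  omega

theorem as_iff {T : Set ℕ} {p : ℕ} : AS (T' T) p ↔ p.Prime ∧ p ∈ T ∧ (Split p ∨ Inert p) := by
  constructor
  · rintro ⟨h1, -, h3⟩
    exact ⟨h1, h3⟩
  · rintro ⟨h1, h2, h3⟩
    exact ⟨h1, h3.elim four_split four_inert, h2, h3⟩

open Classical in
/-- the kinds of the primes for the first part -/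
noncomputable def c1 (p : ℕ) : ℕ := if Split p then 1 else 0

open Classical in
/-- the kinds of the primes for the second part -/
noncomputable def c2 (p : ℕ) : ℕ := if Split p then (if Eight p then 1 else 2) else 0

theorem c1_iff (p : ℕ) : (c1 p = 1 ↔ Split p) ∧ (c1 p = 0 ↔ ¬ Split p) := by
  unfold c1
  by_cases h : Split p
  · simp [h]
  · simp [h]

theorem c2_iff (p : ℕ) : (c2 p = 1 ↔ Split p ∧ Eight p) ∧ (c2 p = 2 ↔ Split p ∧ ¬ Eight p) ∧
    (c2 p = 0 ↔ ¬ Split p) := by
  unfold c2
  by_cases h : Split p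
  · by_cases h2 : Eight p
    · simp [h, h2]
    · simp [h, h2]
  · simp [h]

theorem adm1 (T : Set ℕ) : Adm (AS (T' T)) c1 Split (fun r => r = 1) where
  prime _ h := h.1
  odd p h := by
    rintro rfl
    exact absurd h.2.1 (by norm_num)
  four _ h _ := h.2.1
  mark p _ := (c1_iff p).1.symm

theorem adm2 (T : Set ℕ) : Adm (AS (T' T)) c2 Split (fun r => r ≠ 0) where
  prime _ h := h.1
  odd p h := by
    rintro rfl
    exact absurd h.2.1 (by norm_num)
  four _ h _ := h.2.1
  mark p _ := by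
    rw [Ne, (c2_iff p).2.2, not_not]

/-- the class -/
def Cl (T : Set ℕ) (D : ℕ) : Prop :=
  Squarefree D ∧ ∀ p : ℕ, p.Prime → p ∣ D → p ∈ T ∧ (Split p ∨ Inert p)

theorem class_iff {T : Set ℕ} {D : ℕ} :
    Cl T D ↔ Squarefree D ∧ ∀ p ∈ D.primeFactors, AS (T' T) p := by
  constructor
  · rintro ⟨h1, h2⟩
    exact ⟨h1, fun p hp => as_iff.2 ⟨Nat.prime_of_mem_primeFactors hp,
      h2 p (Nat.prime_of_mem_primeFactors hp) (Nat.dvd_of_mem_primeFactors hp)⟩⟩
  · rintro ⟨h1, h2⟩
    exact ⟨h1, fun p hp hd => (as_iff.1 (h2 p (Nat.mem_primeFactors.2 ⟨hp, hd, h1.ne_zero⟩))).2⟩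

section one

open scoped Classical

/-- the assertions for one number -/
theorem one {T : Set ℕ} {D : ℕ} (h : Cl T D) (hk : number Split D ≤ 2) :
    ((∀ v : HeightOneSpectrum (𝓞 ℚ), MinimalAt (twist D) v) ∧
      {v : HeightOneSpectrum (𝓞 ℚ) | c (twist D) v ≠ 1}.Finite ∧
      FormulaModTwo ℚ (twist D) ∧ (UnitPart D ↔ RankZeroShaTwo D)) ∧
    (UnitPart D ↔ GdM Split (nn 1) D.primeFactors) := by
  set A := D.primeFactors.filter Split with hA
  set B := D.primeFactors.filter fun p => ¬ Split p with hB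
  have hP : ∀ p ∈ A, Split p := fun p hp => (Finset.mem_filter.1 hp).2
  have hS : ∀ q ∈ B, Inert q := by
    intro q hq
    obtain ⟨h1, h2⟩ := Finset.mem_filter.1 hq
    exact ((h.2 q (Nat.prime_of_mem_primeFactors h1) (Nat.dvd_of_mem_primeFactors h1)).2).resolve_left
      h2
  have hd : Disjoint A B := Finset.disjoint_filter_filter_not _ _ _
  have hu : A ∪ B = D.primeFactors := Finset.filter_union_filter_not_eq _ _
  have hc : A.card ≤ 2 := by
    unfold number at hk
    rw [card_pf h.1.ne_zero] at hk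
    convert hk
  have hD : (D : ℤ) = (((∏ p ∈ A, p) * ∏ q ∈ B, q : ℕ) : ℤ) := by
    rw [← Finset.prod_union hd, hu, Nat.prod_primeFactors_of_squarefree h.1]
  obtain ⟨⟨h1, h2, h3, h4, h5⟩, -⟩ :=
    Pool.Agent.Results.MP_9c97e9_nt.AtMostTwoSplitPrimes.result A B hP hS hc D hD
  rw [Pool.Agent.Results.MP_9c97e9_nt.AtMostTwoSplitPrimes.R_eq hP hS] at h4 h5
  have h6 : UnitPart D ↔ RankZeroShaTwo D := by
    constructor
    · intro h
      exact h.1
    · intro h
      refine ⟨h, ?_⟩
      obtain ⟨x, hx0, hx, -, hv⟩ := h5 (h4.1 h)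
      rw [h.1] at hx
      rw [h.2, padicValNat_one_right] at hv
      exact ⟨x, hx0, hv, hx⟩
  refine ⟨⟨h1, h2, h3, h6⟩, ?_⟩
  rw [h6, ← hu]
  unfold RankZeroShaTwo
  rw [h4]
  exact (Pool.Agent.Run7.h701.TW.gdM_iff (P := A) (S := B) hP hS hd).symm

end one

theorem inert_iff {T : Set ℕ} {D : ℕ} (h : Cl T D) : number Inert D = number (fun p => ¬ Split p) D := by
  unfold number
  refine card_pf_congr h.1.ne_zero fun p hp => ⟨not_both, fun h1 => ?_⟩
  exact ((h.2 p (Nat.prime_of_mem_primeFactors hp) (Nat.dvd_of_mem_primeFactors hp)).2).resolve_left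
    h1

theorem fam1 {T : Set ℕ} {k l D : ℕ} : Family T k l D ↔ FamN (AS (T' T)) c1 (ty k l 1 0) D := by
  rw [famN_iff one_ne_zero]
  have e : Family T k l D ↔ Cl T D ∧ number Split D = k ∧ number (fun p => ¬ Split p) D = l := by
    unfold Family
    constructor
    · rintro ⟨h1, h2, h3, h4⟩
      exact ⟨⟨h1, h2⟩, h3, (inert_iff ⟨h1, h2⟩).symm.trans h4⟩
    · rintro ⟨h1, h3, h4⟩
      exact ⟨h1.1, h1.2, h3, (inert_iff h1).trans h4⟩
  rw [e, class_iff, and_assoc]
  unfold number
  refine and_congr_right fun h1 => and_congr_right fun _ => ?_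
  simp only [(c1_iff _).1, (c1_iff _).2]
  constructor
  · rintro ⟨h2, h3⟩
    exact ⟨fun p _ => em _, h2, h3⟩
  · rintro ⟨-, h2, h3⟩
    exact ⟨h2, h3⟩

theorem fam2 {T : Set ℕ} {b r D : ℕ} :
    SplitFamily T b r D ↔ FamN (AS (T' T)) c2 (ty b r 1 2) D := by
  rw [famN_iff (by norm_num : 1 ≠ 2)]
  unfold SplitFamily number
  refine and_congr_right fun h1 => ?_
  have e1 : (∀ p : ℕ, p.Prime → p ∣ D → p ∈ T ∧ Split p) ↔
      (∀ p ∈ D.primeFactors, AS (T' T) p) ∧ ∀ p ∈ D.primeFactors, Split p := by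
    constructor
    · intro h
      refine ⟨fun p hp => ?_, fun p hp => ?_⟩
      · have h2 := h p (Nat.prime_of_mem_primeFactors hp) (Nat.dvd_of_mem_primeFactors hp)
        exact as_iff.2 ⟨Nat.prime_of_mem_primeFactors hp, h2.1, Or.inl h2.2⟩
      · exact (h p (Nat.prime_of_mem_primeFactors hp) (Nat.dvd_of_mem_primeFactors hp)).2
    · rintro ⟨h2, h3⟩ p hp hd
      have hm := Nat.mem_primeFactors.2 ⟨hp, hd, h1.ne_zero⟩
      exact ⟨(as_iff.1 (h2 p hm)).2.1, h3 p hm⟩
  rw [e1, and_assoc]
  refine and_congr_right fun _ => ?_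
  simp only [(c2_iff _).1, (c2_iff _).2.1]
  have e3 : (∀ p ∈ D.primeFactors, Split p) ↔
      ∀ p ∈ D.primeFactors, Split p ∧ Eight p ∨ Split p ∧ ¬ Eight p := by
    refine forall₂_congr fun p _ => ?_
    tauto
  rw [e3]
  refine and_congr_right fun h2 => ?_
  have e4 : ∀ p ∈ D.primeFactors, Split p := fun p hp => by
    rcases h2 p hp with h | h
    · exact h.1
    · exact h.1
  rw [card_pf_congr h1.ne_zero (P := Eight) (Q := fun p => Split p ∧ Eight p)
      fun p hp => ⟨fun h => ⟨e4 p hp, h⟩, fun h => h.2⟩,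
    card_pf_congr h1.ne_zero (P := fun p => ¬ Eight p) (Q := fun p => Split p ∧ ¬ Eight p)
      fun p hp => ⟨fun h => ⟨e4 p hp, h⟩, fun h => h.2⟩]

theorem law_of {T : Set ℕ} {F : ℕ → Prop} {cl : ℕ → ℕ} {M : ℕ → Prop} {a b u v : ℕ} {t : ℝ}
    (hA : Adm (AS (T' T)) cl Split M) (h : ∀ D, F D ↔ FamN (AS (T' T)) cl (ty a b u v) D)
    (hF : ∀ D, F D → Cl T D ∧ number Split D ≤ 2) (hab : 1 ≤ a + b) (h0 : 0 ≤ t) (h1 : t ≤ 1)
    (ht : @Prob (Fin a ⊕ Fin b) _ (ordS a b) (AS (T' T)) cl M (nn 1) (ty a b u v) t)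
    (hD : ∀ i, Dn (PG (AS (T' T)) cl (ty a b u v) i)) : Law F (a + b) t := by
  have e : F = FamN (AS (T' T)) cl (ty a b u v) := funext fun D => propext (h D)
  have e2 : (fun D => F D ∧ UnitPart D) =
      fun D => FamN (AS (T' T)) cl (ty a b u v) D ∧ GdM Split (nn 1) D.primeFactors := by
    funext D
    rw [← e]
    exact propext (and_congr_right fun hD => (one (hF D hD).1 (hF D hD).2).2)
  unfold Law
  rw [e2, e]
  exact law_ty hA hab h0 h1 ht hD

theorem dn_of_dense {T : Set ℕ} {Q : ℕ → Prop} {R : ℕ → Prop} (h : Dense T Q)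
    (hR : ∀ p, p.Prime → p ∈ T → Q p → R p) : Dn R := by
  obtain ⟨δ, Y₀, hδ, h⟩ := h
  exact dn_of hδ h fun p hp => hR p hp.1 hp.2.1 hp.2.2

theorem law_mixed (T : Set ℕ) (k l : ℕ) (hk2 : k ≤ 2) (hl : 1 ≤ l) (hk : 0 < k → Dense T Split)
    (hi : Dense T Inert) : Law (Family T k l) (k + l) (P k) := by
  let _ : LinearOrder (Fin k ⊕ Fin l) := ordS k l
  refine law_of (adm1 T) (fun D => fam1) (fun D hD => ⟨⟨hD.1, hD.2.1⟩, hD.2.2.1.le.trans hk2⟩)
    (by omega) (sp_nonneg k) (sp_le_one k) ?_ ?_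
  · intro p _
    have h1 := card_JM (fun r => r = 1) k l 1 0 rfl zero_ne_one
    have h2 := PrT_unmarked Pool.Agent.Y839.CQ.t_SYM (JM (fun r => r = 1) (ty k l 1 0))
      ⟨Sum.inr ⟨0, by omega⟩, fun h => by
        unfold JM at h
        simp only [Finset.mem_filter] at h
        exact absurd h.2 zero_ne_one⟩ (fun i => nn 1 (p i))
    rw [h1] at h2
    exact h2
  · rintro (i | i)
    · refine dn_of_dense (hk (by have := i.2; omega)) fun p hp hT hs => ?_
      exact ⟨as_iff.2 ⟨hp, hT, Or.inl hs⟩, (c1_iff p).1.2 hs⟩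
    · refine dn_of_dense hi fun p hp hT hs => ?_
      exact ⟨as_iff.2 ⟨hp, hT, Or.inr hs⟩, (c1_iff p).2.2 (not_both hs)⟩

theorem nn_eight {p : ℕ} (hp : Split p) : (Eight p → nn 1 p = 0) ∧ (¬ Eight p → nn 1 p = 1) := by
  have h8 := hp.2.1
  have hN : N 1 p = Pool.Agent.Y687.NN 1 p :=
    (Pool.Agent.Run7.h701.TW.NN_pts hp.1 (by omega) (by omega) (by norm_num)).symm
  unfold Eight Pool.Agent.Run7.h701.TW.nn
  rw [hN]
  exact ⟨fun h => if_pos h, fun h => if_neg h⟩

theorem law_split (T : Set ℕ) (b r : ℕ) (hbr : 1 ≤ b + r) (hbr2 : b + r ≤ 2)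
    (hb : 0 < b → Dense T fun p => Split p ∧ Eight p)
    (hr : 0 < r → Dense T fun p => Split p ∧ ¬ Eight p) :
    Law (SplitFamily T b r) (b + r)
      (if r = 0 then 0 else if Odd r then P (b + r - 1) else P (b + r - 2)) := by
  have h01 := prp_mem b r
  refine law_of (adm2 T) (fun D => fam2) (fun D hD => ?_) hbr h01.1 h01.2 ?_ ?_
  · obtain ⟨h1, h2, h3, h4⟩ := hD
    refine ⟨⟨h1, fun p hp hd => ⟨(h2 p hp hd).1, Or.inl (h2 p hp hd).2⟩⟩, ?_⟩
    classical
    unfold number at h3 h4 ⊢
    rw [card_pf h1.ne_zero] at h3 h4 ⊢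
    have h5 : (D.primeFactors.filter Split).card ≤
        (D.primeFactors.filter Eight).card + (D.primeFactors.filter fun p => ¬ Eight p).card := by
      have h6 := Finset.card_filter_add_card_filter_not (s := D.primeFactors) Eight
      have h7 := Finset.card_filter_le D.primeFactors Split
      omega
    have h8 : (D.primeFactors.filter Eight).card = b := by
      convert h3
    have h9 : (D.primeFactors.filter fun p => ¬ Eight p).card = r := by
      convert h4
    have h10 : (D.primeFactors.filter Split).card ≤ 2 := by omega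
    convert h10
  · exact prob_all (nn 1) one_ne_zero two_ne_zero hbr
      (fun p _ h => (nn_eight ((c2_iff p).1.1 h).1).1 ((c2_iff p).1.1 h).2)
      fun p _ h => (nn_eight ((c2_iff p).2.1.1 h).1).2 ((c2_iff p).2.1.1 h).2
  · rintro (i | i)
    · refine dn_of_dense (hb (by have := i.2; omega)) fun p hp hT hs => ?_
      exact ⟨as_iff.2 ⟨hp, hT, Or.inl hs.1⟩, (c2_iff p).1.2 hs⟩
    · refine dn_of_dense (hr (by have := i.2; omega)) fun p hp hT hs => ?_
      exact ⟨as_iff.2 ⟨hp, hT, Or.inl hs.1⟩, (c2_iff p).2.1.2 hs⟩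

theorem dense_class {q c : ℕ} (hq : Nat.Coprime q 56) (hc : Nat.Coprime c q) (Q : ℕ → Prop) (r : ℕ)
    (hr : Nat.Coprime r 56) (hr56 : r < 56) (hQ : ∀ p, p.Prime → p % 56 = r → Q p) :
    Dense {p | p % q = c % q} Q := by
  have hq0 : 1 ≤ q := by
    rcases Nat.eq_zero_or_pos q with h | h
    · subst h
      exact absurd hq (by decide)
    · exact h
  have h := Run7.h268.FN.dn_class (q := q) (c := c) (m := 56) (r := r) (by norm_num) hq hq0 hc hr hr56
  have h2 : Pool.Agent.V11291.FK.Dn fun p =>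
      p.Prime ∧ p ∈ {p | p % q = c % q} ∧ Q p := by
    obtain ⟨δ, Y₀, hδ, h⟩ := h
    refine ⟨δ, Y₀, hδ, fun Y hY => (h Y hY).trans ?_⟩
    refine Nat.cast_le.2 (Finset.card_le_card fun p hp => ?_)
    simp only [Finset.mem_filter] at hp ⊢
    obtain ⟨h0, h1, h2, h3⟩ := hp
    exact ⟨h0, h1, h2, hQ p h1 h3⟩
  exact Run7.h268.FN.card_of_dn h2

end proof

theorem card_symm_matrices (n : ℕ) :
    (Nat.card {M : Matrix (Fin n) (Fin n) (ZMod 2) // M.IsSymm ∧ M.det ≠ 0} : ℝ) =
      P n * Nat.card {M : Matrix (Fin n) (Fin n) (ZMod 2) // M.IsSymm} := by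
  rw [Pool.Agent.Y839.CQ.t_SYM n, Pool.Agent.Y219.CQ.card_symm]
  push_cast
  exact mul_comm _ _

/-- **The exact 2-part of the formula for the twists of `X_0(14)` by the numbers with at most two split
and any fixed number of inert prime factors from a set of positive density.** -/
theorem result :
    -- the numbers `P n`
    (∀ n : ℕ, (Nat.card {M : Matrix (Fin n) (Fin n) (ZMod 2) // M.IsSymm ∧ M.det ≠ 0} : ℝ) =
      P n * Nat.card {M : Matrix (Fin n) (Fin n) (ZMod 2) // M.IsSymm}) ∧
    -- a single number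
    (∀ (T : Set ℕ) (k l D : ℕ), k ≤ 2 → Family T k l D →
      (∀ v : HeightOneSpectrum (𝓞 ℚ), MinimalAt (twist D) v) ∧
      {v : HeightOneSpectrum (𝓞 ℚ) | c (twist D) v ≠ 1}.Finite ∧
      FormulaModTwo ℚ (twist D) ∧ (UnitPart D ↔ RankZeroShaTwo D)) ∧
    -- at least one inert prime factor
    (∀ (T : Set ℕ) (k l : ℕ), k ≤ 2 → 1 ≤ l → (0 < k → Dense T Split) → Dense T Inert →
      Law (Family T k l) (k + l) (P k)) ∧
    -- no inert prime factor
    (∀ (T : Set ℕ) (b r : ℕ), 1 ≤ b + r → b + r ≤ 2 → (0 < b → Dense T fun p => Split p ∧ Eight p) →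
      (0 < r → Dense T fun p => Split p ∧ ¬ Eight p) →
      Law (SplitFamily T b r) (b + r)
        (if r = 0 then 0 else if Odd r then P (b + r - 1) else P (b + r - 2))) ∧
    -- the residue classes satisfy the conditions of the first case
    (∀ q c : ℕ, Nat.Coprime q 14 → Nat.Coprime c q →
      Dense {p | p % q = c % q} Split ∧ Dense {p | p % q = c % q} Inert) := by
  refine ⟨card_symm_matrices, fun T k l D hk h => ?_, law_mixed, law_split, fun q c hq hc => ?_⟩
  · exact (one (T := T) ⟨h.1, h.2.1⟩ (h.2.2.1.le.trans hk)).1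
  · have hq56 : Nat.Coprime q 56 := by
      have h2 : Nat.Coprime q 2 := Nat.Coprime.coprime_dvd_right (by norm_num) hq
      have h7 : Nat.Coprime q 7 := Nat.Coprime.coprime_dvd_right (by norm_num) hq
      have h8 : Nat.Coprime q (2 ^ 3) := Nat.Coprime.pow_right 3 h2
      exact Nat.Coprime.mul_right h8 h7
    refine ⟨dense_class hq56 hc _ 1 (by norm_num) (by norm_num) fun p hp h => ?_,
      dense_class hq56 hc _ 5 (by norm_num) (by norm_num) fun p hp h => ?_⟩
    · exact ⟨hp, by omega, by omega⟩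
    · exact ⟨hp, by omega, by omega⟩

end Run7.h701.Kept.FixedNumberTwoPartX14
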