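import Pool.Agent.Results.MP_a3f657_nt.FixedNumberTwoInfinityX14
import Pool.Agent.Run7.h701.TW.Star
import Pool.Agent.Run7.h428.Pat
import Pool.Agent.Y687.JQ.Fin

/-!
# The `2^∞`-Selmer groups of several twists of a curve without complex multiplication are independent

`E_D` is the quadratic twist by `D > 0` of the modular curve `X_0(14)`, which has no complex
multiplication.  A prime is split if it is `1` modulo `8` and a square modulo `7`, and inert if it is
`5` modulo `8` and not a square modulo `7`.  `D` runs over the class of all the squarefree numbers whose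
prime factors are split or inert, any number of them, the number of the inert ones being even; there are
at least `a X / (log X)^(3/4)` of them up to `X`.

Let `T` be an arbitrary finite set of squarefree numbers `w` whose prime factors are split or inert. For
`D` in the class let `D ∘ w` be the squarefree part of `D w`. We prove that the conditions that the
`2^∞`-Selmer group of `E_{D ∘ w}` over `ℚ` is zero, for `w` in `T`, are asymptotically independent, each
with the probability `c = ∏_{i ≥ 0} (1 - 2^{-(2i+1)}) = 0.4194...`: for every subset `V` of `T` the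
proportion of the `D` in the class such that `V` is the set of the `w` in `T` with this property is
`c ^ #V (1 - c) ^ #(T \ V)`.

So for a single `w` the proportion is `c`, which is the probability that the `2^∞`-Selmer group is zero
in the model of Bhargava, Kane, Lenstra, Poonen and Rains, for even corank (twice
`1/2 ∏_{i ≥ 1} (1 - 2^{1-2i})`); the twists `E_{D ∘ w}` all have the root number `+ 1`.  If `T` is the
group of the classes of `w` which are squares in a multiquadratic field `F`, then exactly the proportion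
`c ^ [F : ℚ]` of the `D` in the class has trivial `2^∞`-Selmer groups of all the `E_{D ∘ w}`; then the
rank of `E_D` over `F` is zero.

The proof.  The descent for any number of split primes is in Pool/Agent/Run7/h743/SX (helper743), and in
MP_a3f657_nt/FixedNumberTwoInfinityX14 it is expressed by a symmetric matrix over the field with two
elements.  The joint law for these matrices is in the starting files: project CQ of helper703 for one
matrix, project JQ of helper687 and helper697 for several ones (Pool/Agent/Y703/CQ, Pool/Agent/Y687/JQ);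
it was not yet applied to the curves.
-/

set_option autoImplicit false

open Filter Topology

namespace Run7.h701.Kept.IndependentTwistsX14

open Pool.Agent.Results.MP_9c97e9_nt.AtMostTwoSplitPrimes (Split Inert)
open Run7.h701.Kept.FixedNumberTwoPartX14 (number count)
open Pool.Agent.Results.MP_a3f657_nt.FixedNumberTwoInfinityX14 (SelmerZero c)

/-- `D` is squarefree, and all its prime factors are split or inert. -/
def InClass (D : ℕ) : Prop := Squarefree D ∧ ∀ p : ℕ, p.Prime → p ∣ D → Split p ∨ Inert p

/-- `D` is squarefree, its prime factors are split or inert, and the number of the inert ones is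
even. -/
def Family (D : ℕ) : Prop := InClass D ∧ Even (number Inert D)

/-- The squarefree part of `D w`, for squarefree `D` and `w`. -/
def star (D w : ℕ) : ℕ := (D / D.gcd w) * (w / D.gcd w)

/-- `V` is the set of the `w` in `T` such that the `2^∞`-Selmer group of `E_{D ∘ w}` is zero. -/
def Pattern (T V : Finset ℕ) (D : ℕ) : Prop := ∀ w ∈ T, (SelmerZero (star D w) ↔ w ∈ V)

section proof

open scoped Classical

open Pool.Agent.Run7.h701.TW (nn star_pf gd_cq)
open Pool.Agent.Y703.CQ (Cl Sp In Ok SS)
open Pool.Agent.Results.MP_a3f657_nt.FixedNumberTwoInfinityX14 (sel_gd)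
open Run7.h268.FN (card_pf GdM)

theorem mem_iff {D : ℕ} : InClass D ↔ Squarefree D ∧ ∀ p ∈ D.primeFactors, Split p ∨ Inert p := by
  constructor
  · rintro ⟨h1, h2⟩
    exact ⟨h1, fun p hp => h2 p (Nat.prime_of_mem_primeFactors hp) (Nat.dvd_of_mem_primeFactors hp)⟩
  · rintro ⟨h1, h2⟩
    exact ⟨h1, fun p hp hd => h2 p (Nat.mem_primeFactors.2 ⟨hp, hd, h1.ne_zero⟩)⟩

theorem family_iff {D : ℕ} : Family D ↔ Squarefree D ∧ Cl {5} {0} D.primeFactors := by
  unfold Family
  rw [mem_iff, and_assoc]
  refine and_congr_right fun h0 => ?_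
  have e1 : (∀ p ∈ D.primeFactors, Split p ∨ Inert p) ↔ ∀ p ∈ D.primeFactors, Sp p ∨ In {5} p := by
    refine forall₂_congr fun p _ => or_congr Iff.rfl ?_
    unfold Pool.Agent.Y703.CQ.In Pool.Agent.Results.MP_9c97e9_nt.AtMostTwoSplitPrimes.Inert
    rw [Finset.mem_singleton]
    constructor
    · rintro ⟨h1, h2, h3⟩
      refine ⟨h1, ?_, h2, h3⟩
      rintro rfl
      omega
    · rintro ⟨h1, -, h2, h3⟩
      exact ⟨h1, h2, h3⟩
  unfold Pool.Agent.Y703.CQ.Cl
  rw [e1]
  refine and_congr_right fun h1 => ?_
  have h8 : ∀ p ∈ D.primeFactors, (Inert p ↔ p % 8 = 5) := by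
    intro p hp
    rcases e1.2 h1 p hp with h | h
    · constructor
      · intro h2
        exact h2.2.1
      · intro h2
        have := h.2.1
        omega
    · exact ⟨fun _ => h.2.1, fun _ => h⟩
  have h9 : number Inert D = (D.primeFactors.filter fun p => p % 8 = 5).card := by
    unfold number
    rw [card_pf h0.ne_zero]
    exact congrArg Finset.card (Finset.filter_congr fun p hp => h8 p hp)
  have h10 : (D.primeFactors.filter fun p => p % 8 = 3) = ∅ := by
    refine Finset.filter_eq_empty_iff.2 fun p hp h3 => ?_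
    rcases e1.2 h1 p hp with h | h
    · have := h.2.1
      omega
    · have := h.2.1
      omega
  rw [h9, h10, Finset.card_empty, Nat.even_iff]
  constructor
  · intro h
    exact ⟨h, by simp⟩
  · intro h
    exact h.1

theorem star_class {D w : ℕ} (hD : InClass D) (hw : InClass w) : InClass (star D w) := by
  obtain ⟨h1, h2⟩ := star_pf hD.1 hw.1
  refine mem_iff.2 ⟨h1, fun p hp => ?_⟩
  have hp' : p ∈ symmDiff D.primeFactors w.primeFactors := by
    rw [← h2]
    exact hp
  rcases Finset.mem_symmDiff.1 hp' with h | h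
  · exact (mem_iff.1 hD).2 p h.1
  · exact (mem_iff.1 hw).2 p h.1

theorem sel_star {D w : ℕ} (hD : InClass D) (hw : InClass w) :
    SelmerZero (star D w) ↔
      Pool.Agent.Y703.CQ.Gd (nn 1) (symmDiff D.primeFactors w.primeFactors) := by
  have hs := star_class hD hw
  have h1 := sel_gd (T := Set.univ) (D := star D w)
    ⟨hs.1, fun p hp hd => ⟨Set.mem_univ p, hs.2 p hp hd⟩⟩
  have h2 : (star D w).primeFactors = symmDiff D.primeFactors w.primeFactors :=
    (star_pf hD.1 hw.1).2
  rw [h1, ← h2]
  exact (gd_cq (mem_iff.1 hs).2).symm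

/-- the sets in which we count -/
noncomputable def SX (X : ℕ) : Finset ℕ := (Finset.Icc 1 X).filter Family

theorem count_eq (Q : ℕ → Prop) (X : ℕ) :
    count (fun D => Family D ∧ Q D) X = ((SX X).filter Q).card := by
  unfold count SX
  rw [Run7.h268.FN.card_Icc, Finset.filter_filter]
  congr!

theorem count_fam (X : ℕ) : count Family X = (SX X).card := by
  unfold count SX
  rw [Run7.h268.FN.card_Icc]

/-- the positive patterns -/
theorem law_pos {T : Finset ℕ} (hT : ∀ w ∈ T, InClass w) {W : Finset ℕ} (hW : W ⊆ T) :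
    Tendsto (fun X : ℕ => ((@Finset.filter _ (fun D => ∀ w ∈ W, SelmerZero (star D w))
      (Classical.decPred _) (SX X)).card : ℝ) / ((SX X).card : ℝ)) atTop (𝓝 (c ^ W.card)) := by
  have hinj : Set.InjOn Nat.primeFactors (W : Set ℕ) := by
    intro m hm n hn hmn
    rw [← Nat.prod_primeFactors_of_squarefree (hT m (hW hm)).1,
      ← Nat.prod_primeFactors_of_squarefree (hT n (hW hn)).1, hmn]
  have h1 := Pool.Agent.Y687.JQ.t_JDEN {5} {0} (nn 1) (W.biUnion Nat.primeFactors)
    (W.image Nat.primeFactors) ⟨Or.inl rfl, Or.inl (Finset.mem_singleton_self 0)⟩ ⟨?_, ?_⟩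
  · rw [Finset.card_image_of_injOn hinj] at h1
    have hc : c = Pool.Agent.Y703.CQ.c2 := rfl
    rw [hc]
    refine h1.congr fun X => ?_
    have e1 : ((Finset.Icc 1 X).filter fun D =>
        Squarefree D ∧ Cl {5} {0} D.primeFactors).card = (SX X).card :=
      Run7.h428.Pat.fcc fun D _ => family_iff.symm
    have e2 : ((Finset.Icc 1 X).filter fun D => Squarefree D ∧ Cl {5} {0} D.primeFactors ∧
        Pool.Agent.Y687.JQ.GdJ (nn 1) (W.image Nat.primeFactors) D.primeFactors).card =
        (@Finset.filter _ (fun D => ∀ w ∈ W, SelmerZero (star D w)) (Classical.decPred _)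
          (SX X)).card := by
      unfold SX
      rw [Finset.filter_filter]
      refine Run7.h428.Pat.fcc fun D _ => ?_
      rw [← and_assoc, ← family_iff]
      refine and_congr_right fun hD => ?_
      unfold Pool.Agent.Y687.JQ.GdJ
      constructor
      · intro h w hw
        exact (sel_star hD.1 (hT w (hW hw))).2 (h _ (Finset.mem_image_of_mem _ hw))
      · intro h U hU
        obtain ⟨w, hw, rfl⟩ := Finset.mem_image.1 hU
        exact (sel_star hD.1 (hT w (hW hw))).1 (h w hw)
    rw [e1, e2]
  · intro u hu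
    obtain ⟨w, hw, hu'⟩ := Finset.mem_biUnion.1 hu
    rcases (mem_iff.1 (hT w (hW hw))).2 u hu' with h | h
    · refine ⟨h.1, ?_, ?_⟩
      · rintro rfl
        have := h.2.1
        omega
      · rintro rfl
        have := h.2.2
        omega
    · refine ⟨h.1, ?_, ?_⟩
      · rintro rfl
        have := h.2.1
        omega
      · rintro rfl
        have := h.2.2
        omega
  · intro U hU
    obtain ⟨w, hw, rfl⟩ := Finset.mem_image.1 hU
    exact Finset.subset_biUnion_of_mem Nat.primeFactors hw

/-- all patterns -/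
theorem law {T V : Finset ℕ} (hT : ∀ w ∈ T, InClass w) (hV : V ⊆ T) :
    Tendsto (fun X : ℕ => (count (fun D => Family D ∧ Pattern T V D) X : ℝ) / (count Family X : ℝ))
      atTop (𝓝 (c ^ V.card * (1 - c) ^ (T.card - V.card))) := by
  have h1 := Run7.h428.Pat.patterns (T := T) (G := fun w D => SelmerZero (star D w)) (p := c)
    (S := SX) (fun W hW => law_pos hT hW) (T \ V) V hV Finset.sdiff_subset Finset.disjoint_sdiff
  rw [Finset.card_sdiff_of_subset hV] at h1
  refine h1.congr fun X => ?_
  rw [count_eq, count_fam]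
  congr 2
  refine Run7.h428.Pat.fcc fun D _ => ?_
  unfold Pattern
  constructor
  · rintro ⟨h2, h3⟩ w hw
    by_cases hwV : w ∈ V
    · exact ⟨fun _ => hwV, fun _ => h2 w hwV⟩
    · exact ⟨fun h4 => absurd h4 (h3 w (Finset.mem_sdiff.2 ⟨hw, hwV⟩)), fun h4 => absurd h4 hwV⟩
  · intro h2
    exact ⟨fun w hw => (h2 w (hV hw)).2 hw, fun w hw h3 =>
      (Finset.mem_sdiff.1 hw).2 ((h2 w (Finset.mem_sdiff.1 hw).1).1 h3)⟩

/-- the size of the class -/
theorem size : ∃ (a : ℝ) (X₀ : ℕ), 0 < a ∧ ∀ X : ℕ, X₀ ≤ X →
    a * (X / Real.log X ^ (3 / 4 : ℝ)) ≤ (count Family X : ℝ) := by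
  obtain ⟨a, X₀, ha, h⟩ := Pool.Agent.Y302.CQ.t_LOW Pool.Agent.Y405.CQ.t_MER
    Pool.Agent.Y302.CQ.t_CHE {5} {0} ⟨Or.inl rfl, Or.inl (Finset.mem_singleton_self 0)⟩
  refine ⟨a, max X₀ 3, ha, fun X hX => ?_⟩
  have hX1 : (1 : ℝ) < X := by exact_mod_cast (by omega : 1 < X)
  have hlog : 0 < Real.log X := Real.log_pos hX1
  have h1 := h X (by omega)
  have e : (-1 + Pool.Agent.Y703.CQ.dl {5} : ℝ) = -(3 / 4) := by
    unfold Pool.Agent.Y703.CQ.dl
    rw [Finset.card_singleton]
    norm_num
  rw [e, Real.rpow_neg hlog.le] at h1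
  rw [count_fam]
  have h2 := Pool.Agent.Y514.CQ.card_eq {5} {0} X fun _ => True
  have e1 : ((Finset.Icc 1 X).filter fun D =>
      Squarefree D ∧ Cl {5} {0} D.primeFactors ∧ True).card = (SX X).card :=
    Run7.h428.Pat.fcc fun D _ => by rw [and_true]; exact family_iff.symm
  have h3 : (SX X).card = (Pool.Agent.Y703.CQ.SS {5} {0} X).card := by
    rw [← e1]
    refine (Run7.h428.Pat.fcc fun D _ => Iff.rfl).trans (h2.trans ?_)
    congr 1
    ext D
    simp
  rw [h3]
  calc a * (X / Real.log X ^ (3 / 4 : ℝ)) = a * X * (Real.log X ^ (3 / 4 : ℝ))⁻¹ := by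
        rw [div_eq_mul_inv, mul_assoc]
    _ ≤ _ := h1

end proof

/-- **The `2^∞`-Selmer groups of the twists of the twists of `X_0(14)` are independent.** -/
theorem result :
    -- the constant and the size of the class
    0.4194 < c ∧ c < 0.4195 ∧
    (∃ (a : ℝ) (X₀ : ℕ), 0 < a ∧ ∀ X : ℕ, X₀ ≤ X →
      a * (X / Real.log X ^ (3 / 4 : ℝ)) ≤ (count Family X : ℝ)) ∧
    -- the proportions of all the patterns
    ∀ T V : Finset ℕ, (∀ w ∈ T, InClass w) → V ⊆ T →
      Tendsto (fun X : ℕ => (count (fun D => Family D ∧ Pattern T V D) X : ℝ) /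
        (count Family X : ℝ)) atTop (𝓝 (c ^ V.card * (1 - c) ^ (T.card - V.card))) :=
  ⟨Pool.Agent.Y948.CQ.t_C2.2.2.2.1, Pool.Agent.Y948.CQ.t_C2.2.2.2.2, size,
    fun _ _ hT hV => law hT hV⟩

end Run7.h701.Kept.IndependentTwistsX14
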