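import Pool.Agent.Run7.h701.TW.InfK
import Pool.Agent.Run7.h701.TW.Prt

/-!
# The 2-part of the Birch and Swinnerton-Dyer conjecture over fields of odd degree for the quadratic
# twists of `X_0(14)` by at most two split primes and any inert primes

`E_D` is the quadratic twist by `D > 0` of the modular curve `X_0(14)` (without complex
multiplication).  A prime is called split if it is `1` modulo `8` and a square modulo `7`, and inert if
it is `5` modulo `8` and not a square modulo `7`.  `D` is the product of the elements of a set `P` of at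
most two split primes and of an arbitrary finite set `S` of inert primes.  `K ≠ ℚ` is a subfield of odd
degree of the `q`-th cyclotomic field, `q` a power of a prime, prime to `14 D`, such that the primes
dividing `D` remain prime in `K`, and either `q` is a power of `3` (then `K` is a layer of the
cyclotomic `ℤ₃`-extension of `ℚ`), or `2` and `7` remain prime in `K` and the narrow class number of
`K` is odd.

Put `z = L(E_D/K, 1) √|Δ_K| #E_D(K)_tors² / (Ω ∏ c_v)`; the formula of Birch and Swinnerton-Dyer says
that `z` is the order of the Tate-Shafarevich group if the rank is zero, and that `z = 0` otherwise.  We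
prove, for all these `D` and `K`, that `z` is a rational number which is integral at `2`, and that it is
a 2-adic unit if and only if the rank of `E_D` over `K` is zero and the 2-primary part of the
Tate-Shafarevich group over `K` is trivial (the formula modulo two).  Both conditions are equivalent to
`det R ≠ 0`, where `R` is an explicit matrix over `𝔽₂` with rows and columns indexed by `P`, which does
not depend on `K`.  If `det R ≠ 0`, then the 2-part of the conjecture holds for `E_D` over `K`.  For
given `P`, `S` and `K` this happens if one of infinitely many inert primes, prime also in `K`, is added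
to `S`.

The proof: over `ℚ` see Pool/Agent/Results/MP_9c97e9_nt/AtMostTwoSplitPrimes.lean; the passage to `K`
is that of Pool/Agent/Results/MP_f50388_nt/AllTwistsOddDegree.lean, where for every `D` the leading
coefficients, the ranks and the 2-primary parts of the Tate-Shafarevich groups over `K` and `ℚ` are
compared, and where the 2-part is proved if `P` is empty.
-/

set_option autoImplicit false

open NumberField NumberField.InfinitePlace IsDedekindDomain WeierstrassCurve MeasureTheory Filter
  Topology

namespace Pool.Agent.Results.MP_e996df_nt.TwoSplitPrimesOddDegree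

open scoped Classical

open Pool.Agent.TH841.NF.D (Sha)

open Pool.Agent.Y682 (NCl)

/-- The quadratic twist `E_D` of `X_0(14)` (`D = 1` modulo `4`), with its global minimal equation
`y² + x y + y = x³ + ((D - 1)/4) x² + ((9 D² - 1)/2) x - (23 D³ + 1)/4`.  It is isomorphic to
`Y² = X (X² + 13 D X + 128 D²)` by `X = 4 (x - D)`, `Y = 4 (2 y + x + 1)`. -/
def twist (D : ℤ) : WeierstrassCurve ℤ :=
  ⟨1, (D - 1) / 4, 1, (9 * D ^ 2 - 1) / 2, -((23 * D ^ 3 + 1) / 4)⟩

/-- The curve given by the equation of `W` over the ring `R`. -/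
abbrev base (W : WeierstrassCurve ℤ) (R : Type) [CommRing R] : WeierstrassCurve R :=
  W.map (Int.castRingHom R)

/-- The number of the affine points `(x, y)` over the ring `R`. -/
noncomputable def pts (W : WeierstrassCurve ℤ) (R : Type) [CommRing R] : ℕ :=
  Nat.card {P : R × R // (base W R).toAffine.Equation P.1 P.2}

section

variable {K : Type} [Field K] [NumberField K]

/-- `a_v = N v + 1 - #W(k_v)`, the points over the residue field `k_v` counted with the point at
infinity. -/
noncomputable def a (W : WeierstrassCurve ℤ) (v : HeightOneSpectrum (𝓞 K)) : ℤ :=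
  (Ideal.absNorm v.asIdeal : ℤ) - pts W (𝓞 K ⧸ v.asIdeal)

/-- The Euler factor of `L(W/K, s)` at `v` : `(1 - a_v N v^(-s) + N v^(1 - 2 s))⁻¹` if the
discriminant is a unit at `v`, and `(1 - a_v N v^(-s))⁻¹` otherwise. -/
noncomputable def factor (W : WeierstrassCurve ℤ) (s : ℂ) (v : HeightOneSpectrum (𝓞 K)) : ℂ :=
  (1 - (a W v : ℂ) * (Ideal.absNorm v.asIdeal : ℂ) ^ (-s) +
    if ((W.Δ : ℤ) : 𝓞 K) ∈ v.asIdeal then 0 else (Ideal.absNorm v.asIdeal : ℂ) ^ (1 - 2 * s))⁻¹

/-- The equation is minimal at the finite place `v` of `K`: no change of variables over `K` that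
keeps the coefficients integral at `v` decreases the valuation of the discriminant. -/
def MinimalAt (W : WeierstrassCurve ℤ) (v : HeightOneSpectrum (𝓞 K)) : Prop :=
  ∀ C : VariableChange K, v.valuation K (C • base W K).a₁ ≤ 1 →
    v.valuation K (C • base W K).a₂ ≤ 1 → v.valuation K (C • base W K).a₃ ≤ 1 →
    v.valuation K (C • base W K).a₄ ≤ 1 → v.valuation K (C • base W K).a₆ ≤ 1 →
    v.valuation K (C • base W K).Δ ≤ v.valuation K (base W K).Δ

/-- `E⁰(K_v)`, the group of the points of `W` over the completion `K_v` with nonsingular reduction: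
the points `(x, y)` where `x` is not integral, or one of the partial derivatives of
`y² + a₁ x y + a₃ y - x³ - a₂ x² - a₄ x - a₆` is a unit at `(x, y)`, and the point at infinity. -/
noncomputable def nonsing (W : WeierstrassCurve ℤ) (v : HeightOneSpectrum (𝓞 K)) :
    AddSubgroup (base W (v.adicCompletion K)).toAffine.Point :=
  AddSubgroup.closure {P | ∀ x y h, P = Affine.Point.some x y h →
    1 < Valued.v x ∨ Valued.v (W.a₁ * y - (3 * x ^ 2 + 2 * W.a₂ * x + W.a₄)) = 1 ∨
      Valued.v (2 * y + W.a₁ * x + W.a₃) = 1}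

/-- The Tamagawa number `c_v = [E(K_v) : E⁰(K_v)]` of a minimal equation. -/
noncomputable def c (W : WeierstrassCurve ℤ) (v : HeightOneSpectrum (𝓞 K)) : ℕ :=
  (nonsing W v).index

end

section

variable (K : Type) [Field K] [NumberField K]

/-- The product of the Tamagawa numbers. -/
noncomputable def Tam (W : WeierstrassCurve ℤ) : ℕ := ∏ᶠ v : HeightOneSpectrum (𝓞 K), c W v

/-- The 2-primary part of the Tate-Shafarevich group over `K`. -/
noncomputable abbrev Sha2 (W : WeierstrassCurve ℤ) : AddSubgroup (Sha (base W K)) :=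
  AddCommGroup.primaryComponent (Sha (base W K)) 2

/-- The torsion points over `K`. -/
def tors (W : WeierstrassCurve ℤ) : Set (base W K).toAffine.Point := {P | ∃ n : ℕ, 0 < n ∧ n • P = 0}

/-- The rank of the group of the points over `K`. -/
noncomputable def rank (W : WeierstrassCurve ℤ) : ℕ := Module.finrank ℤ (base W K).toAffine.Point

/-- `g` is a basis of the group of the points over `K` modulo torsion. -/
def IsBasis (W : WeierstrassCurve ℤ) {r : ℕ} (g : Fin r → (base W K).toAffine.Point) : Prop :=
  ∀ P : (base W K).toAffine.Point, ∃! n : Fin r → ℤ, P - ∑ i, n i • g i ∈ tors K W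

/-- `h` is the canonical height: `h(P) = lim 4^{-k} h_K(x(2^k P))`, where `h_K` is the logarithmic
height relative to `K`. -/
def IsHeight (W : WeierstrassCurve ℤ) (h : (base W K).toAffine.Point → ℝ) : Prop :=
  ∀ P : (base W K).toAffine.Point,
    Tendsto (fun k : ℕ => Height.logHeight ((2 ^ k : ℕ) • P).xRep / 4 ^ k) atTop (𝓝 (h P))

/-- The regulator, the determinant of `⟨g_i, g_j⟩ = (h(g_i + g_j) - h(g_i) - h(g_j)) / 2`. -/
noncomputable def reg (W : WeierstrassCurve ℤ) (h : (base W K).toAffine.Point → ℝ) {r : ℕ}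
    (g : Fin r → (base W K).toAffine.Point) : ℝ :=
  (Matrix.of fun i j : Fin r => (h (g i + g j) - h (g i) - h (g j)) / 2).det

end

/-- `4 x³ + b₂ x² + 2 b₄ x + b₆ = (2 y + a₁ x + a₃)²`, where `b₂ = a₁² + 4 a₂`,
`b₄ = 2 a₄ + a₁ a₃`, `b₆ = a₃² + 4 a₆`. -/
def cubic (W : WeierstrassCurve ℤ) {R : Type} [CommRing R] (x : R) : R :=
  4 * x ^ 3 + W.b₂ * x ^ 2 + 2 * W.b₄ * x + W.b₆

/-- `∫_{W(ℝ)} |ω|` with `ω = dx / (2 y + a₁ x + a₃)`, as an integral over `x`: two real points lie
over each `x` with `cubic x > 0`. -/
noncomputable def realPeriod (W : WeierstrassCurve ℤ) : ℝ :=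
  2 * ∫ x in {x : ℝ | 0 < cubic W x}, 1 / √(cubic W x)

/-- `2 ∫_{W(ℂ)} |ω ∧ ω̄|`, where `|ω ∧ ω̄| = du dv` in a local parameter `z = u + i v` with
`dz = ω`, as an integral over `x`: two points lie over a general `x`, and `|ω ∧ ω̄|` is the area
element of the plane of `x` divided by `|cubic x|`. -/
noncomputable def complexPeriod (W : WeierstrassCurve ℤ) : ℝ := 2 * (2 * ∫ x : ℂ, 1 / ‖cubic W x‖)

/-- The global period of an equation that is minimal at all finite places. -/
noncomputable def Omega (K : Type) [Field K] [NumberField K] (W : WeierstrassCurve ℤ) : ℝ :=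
  realPeriod W ^ nrRealPlaces K * complexPeriod W ^ nrComplexPlaces K

/-- The `L`-function of `W` over `K` is an entire function `L`, its order at `s = 1` is `n`, and `x` is
the analytic order of the Tate-Shafarevich group, that is
`L*(1) √|Δ_K| (#E(K)_tors)² / (Reg Ω Tam)`, where `L*(1)` is the leading coefficient at `1`: the value
of `#Ш` that is predicted by the conjecture.  (The three numbers in the denominator and the number of
the torsion points are positive.) -/
def IsAnalyticSha (K : Type) [Field K] [NumberField K] (W : WeierstrassCurve ℤ) (n : ℕ) (x : ℂ) :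
    Prop :=
  ∃ (L : ℂ → ℂ) (l : ℂ) (h : (base W K).toAffine.Point → ℝ) (r : ℕ)
    (g : Fin r → (base W K).toAffine.Point), Differentiable ℂ L ∧
    (∀ s : ℂ, 3 / 2 < s.re → HasProd (factor (K := K) W s) (L s)) ∧
    analyticOrderAt L 1 = n ∧ Tendsto (fun s => L s / (s - 1) ^ n) (𝓝[≠] 1) (𝓝 l) ∧
    IsHeight K W h ∧ IsBasis K W g ∧ 0 < reg K W h g ∧ 0 < Omega K W ∧ 0 < Tam K W ∧
    0 < Nat.card (tors K W) ∧
    x = l * ((√|(discr K : ℝ)| : ℝ) : ℂ) * (Nat.card (tors K W) : ℂ) ^ 2 /
      (((reg K W h g * Omega K W * Tam K W : ℝ)) : ℂ)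

/-- The 2-part of the conjecture of Birch and Swinnerton-Dyer for `W` over `K`: the `L`-function is
entire, its order at `s = 1` is the rank, the 2-primary part of the Tate-Shafarevich group is finite,
and the analytic order of the Tate-Shafarevich group is a rational number with the same 2-adic
valuation as the order of that 2-primary part. -/
def TwoPart (K : Type) [Field K] [NumberField K] (W : WeierstrassCurve ℤ) : Prop :=
  ∃ x : ℚ, x ≠ 0 ∧ IsAnalyticSha K W (rank K W) x ∧ Finite (Sha2 K W) ∧
    padicValRat 2 x = padicValNat 2 (Nat.card (Sha2 K W))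

/-- The formula of Birch and Swinnerton-Dyer modulo two for `W` over `K`: the `L`-function is entire,
the number `z = L(1) √|Δ_K| (#E(K)_tors)² / (Ω Tam)` is rational and integral at `2`, and it is a 2-adic
unit if and only if the rank is zero and the 2-primary part of the Tate-Shafarevich group is trivial.
(The formula says that `z` is the order of the Tate-Shafarevich group if the rank is zero, and zero
otherwise.) -/
def FormulaModTwo (K : Type) [Field K] [NumberField K] (W : WeierstrassCurve ℤ) : Prop :=
  ∃ (L : ℂ → ℂ) (z : ℚ), Differentiable ℂ L ∧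
    (∀ s : ℂ, 3 / 2 < s.re → HasProd (factor (K := K) W s) (L s)) ∧
    0 < Omega K W ∧ 0 < Tam K W ∧ 0 < Nat.card (tors K W) ∧
    L 1 * ((√|(discr K : ℝ)| : ℝ) : ℂ) * (Nat.card (tors K W) : ℂ) ^ 2 =
      z * ((Omega K W * Tam K W : ℝ) : ℂ) ∧
    (z = 0 ∨ 0 ≤ padicValRat 2 z) ∧
    ((z ≠ 0 ∧ padicValRat 2 z = 0) ↔ (rank K W = 0 ∧ Nat.card (Sha2 K W) = 1))

/-- The inert primes (in `ℚ(√2)` and in `ℚ(√-7)`; they are `1` modulo `4`). -/
def Inert (q : ℕ) : Prop := q.Prime ∧ q % 8 = 5 ∧ (q % 7 = 3 ∨ q % 7 = 5 ∨ q % 7 = 6)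

/-- The split primes (in `ℚ(i, √2, √-7)`). -/
def Split (p : ℕ) : Prop := p.Prime ∧ p % 8 = 1 ∧ (p % 7 = 1 ∨ p % 7 = 2 ∨ p % 7 = 4)

/-- The number of the points over the field with `p` elements of the twist by `m`, with the point at
infinity. -/
noncomputable def N (m p : ℕ) : ℕ := pts (twist m) (ZMod p) + 1

/-- The matrix `R` over the field with two elements, with rows and columns indexed by `P`: the entry at
`(p, p')`, `p ≠ p'`, is `0` if `p'` is a square modulo `p` and `1` otherwise, and the entry at `(p, p)` is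
`0` if `8` divides the number of the points modulo `p` of the twist by `D / p`, and `1` otherwise; `D` is
the product of the elements of `P` and `S`. -/
noncomputable def R (P S : Finset ℕ) : Matrix P P (ZMod 2) := Matrix.of fun p p' =>
  if p = p' then (if 8 ∣ N ((∏ r ∈ P.erase (p : ℕ), r) * ∏ q ∈ S, q) p then 0 else 1)
  else (if IsSquare ((p' : ℕ) : ZMod p) then 0 else 1)

open Pool.Agent.Run7.h701.TW in
/-- the matrix on the other model -/
theorem R_eq {P S : Finset ℕ} (hP : ∀ p ∈ P, Split p) (hS : ∀ q ∈ S, Inert q) : R P S = RR P S := by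
  ext p p'
  rw [RR_apply]
  have hp := hP p p.2
  have h8 := hp.2.1
  have hm : ((∏ r ∈ P.erase (p : ℕ), r) * ∏ q ∈ S, q) % 4 = 1 := by
    rw [Nat.mul_mod, mod4_prod fun q hq => hP q (Finset.mem_of_mem_erase hq),
      Pool.Agent.Y687.prod_mod_four hS]
  have hN : N ((∏ r ∈ P.erase (p : ℕ), r) * ∏ q ∈ S, q) p =
      Pool.Agent.Y687.NN ((∏ r ∈ P.erase (p : ℕ), r) * ∏ q ∈ S, q) p :=
    (NN_pts hp.1 (by omega) (by omega) hm).symm
  unfold R nn ee
  rw [Matrix.of_apply, hN]
  by_cases h : p = p'
  · rw [if_pos h, if_pos (congrArg _ h)]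
  · rw [if_neg h, if_neg (fun h' => h (Subtype.ext h'))]

/-- The assertions for the curve `W = E_D` over `K`: the equation is minimal at all the finite places,
almost all the Tamagawa numbers are `1`, the formula of Birch and Swinnerton-Dyer holds modulo two, the
rank is zero and the 2-primary part of the Tate-Shafarevich group is trivial if and only if
`det R ≠ 0`, and in this case the 2-part of the conjecture holds. -/
def Holds (K : Type) [Field K] [NumberField K] (P S : Finset ℕ) (W : WeierstrassCurve ℤ) : Prop :=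
  (∀ v : HeightOneSpectrum (𝓞 K), MinimalAt W v) ∧
    {v : HeightOneSpectrum (𝓞 K) | c W v ≠ 1}.Finite ∧ FormulaModTwo K W ∧
    ((rank K W = 0 ∧ Nat.card (Sha2 K W) = 1) ↔ (R P S).det ≠ 0) ∧
    ((R P S).det ≠ 0 → TwoPart K W)

/-- The condition on the subfield `K` of the `q`-th cyclotomic field `M`: `q` is a power of a prime and
prime to `14`, `K` has odd degree, the primes of `T` do not divide `q` and are inert in `K`, and either
`q` is a power of `3` (then `K` is a layer of the cyclotomic `ℤ₃`-extension of `ℚ`), or `2` and `7` are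
inert in `K` and the narrow class number of `K` is odd. -/
def Allowed (q : ℕ) (M : Type) [Field M] [NumberField M] (K : IntermediateField ℚ M)
    (T : Finset ℕ) : Prop :=
  IsPrimePow q ∧ q.Coprime 14 ∧ Odd (Module.finrank ℚ K) ∧
    (∀ p ∈ T, ¬ p ∣ q ∧ (Ideal.span {((p : ℕ) : 𝓞 K)}).IsPrime) ∧
    (3 ∣ q ∨ ((Ideal.span {((2 : ℕ) : 𝓞 K)}).IsPrime ∧
      (Ideal.span {((7 : ℕ) : 𝓞 K)}).IsPrime ∧ Odd (Nat.card (NCl K))))

/-- **Main theorem.** Let `D > 0` be the product of the elements of a set `P` of at most two split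
primes and of a finite set `S` of inert primes, let `E_D` be the twist by `D` of `X_0(14)`, and let
`K ≠ ℚ` be a subfield of the `q`-th cyclotomic field that satisfies the condition `Allowed` for the
primes dividing `D`.

(1) The equation is minimal at all the finite places of `K`, almost all the Tamagawa numbers are `1`,
the formula of Birch and Swinnerton-Dyer over `K` holds modulo two, the rank over `K` is zero and the
2-primary part of the Tate-Shafarevich group over `K` is trivial if and only if `det R ≠ 0`, and in this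
case the 2-part of the conjecture holds over `K`.
(2) There are infinitely many inert primes `r`, prime also in `K`, such that `det R ≠ 0` for `P` and
`S ∪ {r}`. -/
theorem result (P S : Finset ℕ) (hP : ∀ p ∈ P, Split p) (hS : ∀ q ∈ S, Inert q)
    (hcard : P.card ≤ 2) (D : ℤ) (hD : D = (((∏ p ∈ P, p) * ∏ q ∈ S, q : ℕ) : ℤ))
    (q : ℕ) [NeZero q] (M : Type) [Field M] [NumberField M] [IsCyclotomicExtension {q} ℚ M]
    (K : IntermediateField ℚ M) (_ : K ≠ ⊥) (hK : Allowed q M K (P ∪ S)) :
    Holds K P S (twist D) ∧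
    {r : ℕ | Inert r ∧ r ∉ S ∧ Allowed q M K (P ∪ insert r S) ∧
      (R P (insert r S)).det ≠ 0}.Infinite := by
  obtain ⟨g1, g2, g3, g4, g5⟩ := hK
  unfold Holds Allowed
  rw [R_eq hP hS]
  obtain ⟨-, -, -, -, -, h6⟩ := Pool.Agent.Run7.h701.TW.main_all
    Pool.Agent.Run7.h701.TW.parts Pool.Agent.Y697.XF.t_REGU
    (P := P) (S := S) hP hS hcard hD
  refine ⟨h6 q g1 g2 M K g3 g5 g4, ?_⟩
  have h2 := Pool.Agent.Run7.h701.TW.two_inert q g1 M K g3 g5
  refine (Pool.Agent.Run7.h701.TW.inf_q_mod (P := P) (S := S) hP hS hcard (NeZero.ne q) g2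
    fun p hp => (g4 p (Finset.mem_union_left _ hp)).1).mono ?_
  rintro r ⟨k1, k2, k3, k4⟩
  have hS' : ∀ r' ∈ insert r S, Inert r' := by
    intro r' hr
    rcases Finset.mem_insert.1 hr with rfl | hr
    · exact k1
    · exact hS r' hr
  refine ⟨k1, k2, ⟨g1, g2, g3, ?_, g5⟩, by rw [R_eq hP hS']; exact k4⟩
  intro p hp
  rw [Finset.mem_union, Finset.mem_insert] at hp
  have hr : ¬ r ∣ q ∧ (Ideal.span {((r : ℕ) : 𝓞 K)}).IsPrime := by
    refine ⟨fun h => ?_, Pool.Agent.Run7.h701.TW.inert_of_two g2 h2 k1.1 k3⟩
    have h3 : r ∣ 2 := by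
      have h4 : r ≡ 2 [MOD r] := k3.of_dvd h
      have h5 : 2 ≡ 0 [MOD r] := h4.symm.trans (by
        show r % r = 0 % r
        rw [Nat.mod_self, Nat.zero_mod])
      exact (Nat.modEq_zero_iff_dvd).1 h5
    have h4 := (Nat.prime_dvd_prime_iff_eq k1.1 Nat.prime_two).1 h3
    have h5 := k1.2.1
    rw [h4] at h5
    norm_num at h5
  rcases hp with hp | rfl | hp
  · exact g4 p (Finset.mem_union_left _ hp)
  · exact hr
  · exact g4 p (Finset.mem_union_right _ hp)

end Pool.Agent.Results.MP_e996df_nt.TwoSplitPrimesOddDegree
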